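import Pool.Agent.X195.PC2

/-!
# MP_a24849_co: the accurate domination number of partition coronas has unbounded excess

`NbrPartitions G` is a family of partitions `𝒫(v)` of the neighbourhoods `N_G(v)` into nonempty
blocks, `corona 𝒫` is the `𝒫`-corona of `G`, and `gammaA` is the accurate domination number.
-/

namespace Pool.Agent.Results.MP_a24849_co.UnboundedAccurateExcess

open Pool.Agent.X195.PC

/-- For every `k` there are a finite graph `G` (a complete graph) and a family `𝒫` of partitions
with `γ_a(G ∘ 𝒫) > |V_G| + k`; so no integer `k` as in Q1 exists. -/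
theorem result :
    (∀ k : ℕ, ∃ (V : Type) (_ : Fintype V) (P : NbrPartitions (⊤ : SimpleGraph V)),
      Fintype.card V + k < gammaA (corona P)) ∧
    ¬ ∃ k : ℕ, ∀ (V : Type) (_ : Fintype V) (G : SimpleGraph V) (P : NbrPartitions G),
      gammaA (corona P) ≤ Fintype.card V + k := by
  have h1 : ∀ k : ℕ, ∃ (V : Type) (_ : Fintype V) (P : NbrPartitions (⊤ : SimpleGraph V)),
      Fintype.card V + k < gammaA (corona P) := by
    intro k
    obtain ⟨P, L, i1, i2, i3, i4, hq⟩ := exists_plane (2 * (k + 1) + 1)
    refine ⟨P, i3, parts P L, ?_⟩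
    have := lt_gammaA (P := P) (L := L) (k + 1) (by omega) hq
    omega
  refine ⟨h1, ?_⟩
  rintro ⟨k, hk⟩
  obtain ⟨V, i, P, hP⟩ := h1 k
  have := hk V i ⊤ P
  omega

end Pool.Agent.Results.MP_a24849_co.UnboundedAccurateExcess
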